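import Pool.Agent.Helper40_ZOL.Stmts

/-!
# ZOL, row UNK: unknotting moves
-/

set_option autoImplicit false

namespace Pool.Agent.ZOL.H65

open Pool.Agent.ZOL

theorem kn_eq {x y : Word} (hx : IsGauss x ∧ Planar (shadow x))
    (hy : IsGauss y ∧ Planar (shadow y)) (h : Step x y) : kn x = kn y := by
  unfold kn
  rw [dif_pos hx, dif_pos hy]
  congr 1
  exact Quot.sound h

theorem gauss_of (w : Word) (h : ∀ a ∈ labels w, ∃ l ∈ w, sub {a} w = [l, bar l]) :
    IsGauss w := by
  intro a ha
  obtain ⟨l, -, hl⟩ := h a ha
  exact ⟨l, hl⟩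

theorem between_nil (a : ℕ) (v : Shadow) (h : ∀ x ∈ v, x.1 ≠ a) : between a v = [] := by
  unfold between
  have h1 : v.dropWhile (fun x => decide (x.1 ≠ a)) = [] := by
    rw [List.dropWhile_eq_nil_iff]
    intro x hx
    exact decide_eq_true (h x hx)
  rw [h1]
  rfl

theorem planar_of (v : Shadow) (h1 : ∀ a ∈ v.map Prod.fst, ((between a v).map eps).sum = 0)
    (h2 : ∀ a ∈ v.map Prod.fst, ∀ b ∈ v.map Prod.fst,
      (v.map (fun x => eps x * wt a v x * wt b v (x.1, !x.2))).sum = 0) : Planar v := by
  have hn : ∀ a, a ∉ v.map Prod.fst → ∀ x ∈ v, x.1 ≠ a := by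
    intro a ha x hx hxa
    exact ha (List.mem_map.2 ⟨x, hx, hxa⟩)
  have hw : ∀ a, a ∉ v.map Prod.fst → ∀ x ∈ v, ∀ c : Bool, wt a v (x.1, c) = 0 := by
    intro a ha x hx c
    unfold wt
    rw [if_neg (hn a ha x hx), between_nil a v (hn a ha), if_neg List.not_mem_nil]
  constructor
  · intro a
    by_cases ha : a ∈ v.map Prod.fst
    · exact h1 a ha
    · rw [between_nil a v (hn a ha)]
      rfl
  · intro a b
    by_cases ha : a ∈ v.map Prod.fst
    · by_cases hb : b ∈ v.map Prod.fst
      · exact h2 a ha b hb
      · apply List.sum_eq_zero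
        intro y hy
        obtain ⟨x, hx, rfl⟩ := List.mem_map.1 hy
        show eps x * wt a v x * wt b v (x.1, !x.2) = 0
        rw [hw b hb x hx, mul_zero]
    · apply List.sum_eq_zero
      intro y hy
      obtain ⟨x, hx, rfl⟩ := List.mem_map.1 hy
      show eps x * wt a v x * wt b v (x.1, !x.2) = 0
      have e : wt a v x = 0 := hw a ha x hx x.2
      rw [e, mul_zero, zero_mul]

/-- kinks -/
def E1 : Word := [(2, true, true), (2, false, false)]

def E2 : Word := [(0, true, true), (0, false, false), (3, true, true), (3, false, false)]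

def E3 : Word := [(3, true, true), (3, false, false)]

theorem d_trefoil : IsGauss trefoil ∧ Planar (shadow trefoil) :=
  ⟨gauss_of _ (by decide), planar_of _ (by decide) (by decide)⟩

theorem d_eight : IsGauss eight ∧ Planar (shadow eight) :=
  ⟨gauss_of _ (by decide), planar_of _ (by decide) (by decide)⟩

theorem d_trefoil' : IsGauss (flip {1} trefoil) ∧ Planar (shadow (flip {1} trefoil)) :=
  ⟨gauss_of _ (by decide), planar_of _ (by decide) (by decide)⟩

theorem d_eight' : IsGauss (flip {1} eight) ∧ Planar (shadow (flip {1} eight)) :=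
  ⟨gauss_of _ (by decide), planar_of _ (by decide) (by decide)⟩

theorem d_E1 : IsGauss E1 ∧ Planar (shadow E1) :=
  ⟨gauss_of _ (by decide), planar_of _ (by decide) (by decide)⟩

theorem d_E2 : IsGauss E2 ∧ Planar (shadow E2) :=
  ⟨gauss_of _ (by decide), planar_of _ (by decide) (by decide)⟩

theorem d_E3 : IsGauss E3 ∧ Planar (shadow E3) :=
  ⟨gauss_of _ (by decide), planar_of _ (by decide) (by decide)⟩

theorem d_nil : IsGauss [] ∧ Planar (shadow []) :=
  ⟨gauss_of _ (by decide), planar_of _ (by decide) (by decide)⟩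

/-- Row UNK. -/
theorem unk (mgau : MGauStmt) (mpla : MPlaStmt) : UnkStmt := by
  refine ⟨d_trefoil, d_eight, fun w hw hp => ?_⟩
  have hm : ∀ E : Word, IsGauss E ∧ Planar (shadow E) →
      IsGauss (mul w E) ∧ Planar (shadow (mul w E)) := fun E hE =>
    ⟨mgau w E hw hE.1, mpla w E hw hE.1 hp hE.2⟩
  have h0 : kn w = kn (mul w []) := by
    refine kn_eq ⟨hw, hp⟩ (hm [] d_nil) ?_
    have e : mul w [] = relab (fun n => 2 * n) w := by
      unfold mul
      exact List.append_nil _
    rw [e]
    refine Step.rename w (fun n => 2 * n) ?_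
    intro a _ b _ hab
    have : 2 * a = 2 * b := hab
    omega
  obtain ⟨u, hu⟩ : ∃ u : Word, u = relab (fun n => 2 * n) w := ⟨_, rfl⟩
  have hmu : ∀ E : Word, mul w E = u ++ relab (fun n => 2 * n + 1) E := by
    intro E
    rw [hu]
    rfl
  have s1 : Step (mul w (flip {1} trefoil)) (mul w E1) := by
    rw [hmu, hmu]
    have h := Step.r2a u [(5, true, true)] [(5, false, false)] 1 3 true true
    have e1 : u ++ relab (fun n => 2 * n + 1) (flip {1} trefoil) =
        u ++ [(1, true, true), (3, !true, true)] ++ [(5, true, true)] ++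
          [(1, !true, !true), (3, true, !true)] ++ [(5, false, false)] := by
      simp only [List.append_assoc]
      congr 1
    have e2 : u ++ relab (fun n => 2 * n + 1) E1 =
        u ++ [(5, true, true)] ++ [(5, false, false)] := by
      simp only [List.append_assoc]
      congr 1
    rw [e1, e2]
    exact h
  have s2 : Step (mul w E1) (mul w []) := by
    rw [hmu, hmu]
    have h := Step.r1 u [] 5 true true
    have e1 : u ++ relab (fun n => 2 * n + 1) E1 =
        u ++ [(5, true, true), (5, !true, !true)] ++ [] := by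
      rw [List.append_nil]
      congr 1
    have e2 : u ++ relab (fun n => 2 * n + 1) [] = u ++ [] := rfl
    rw [e1, e2]
    exact h
  have s3 : Step (mul w (flip {1} eight)) (mul w E2) := by
    rw [hmu, hmu]
    have h := Step.r2b (u ++ [(1, true, true)]) [(1, false, false), (7, true, true)]
      [(7, false, false)] 3 5 true true
    have e1 : u ++ relab (fun n => 2 * n + 1) (flip {1} eight) =
        (u ++ [(1, true, true)]) ++ [(3, true, true), (5, !true, true)] ++
          [(1, false, false), (7, true, true)] ++ [(5, true, !true), (3, !true, !true)] ++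
          [(7, false, false)] := by
      simp only [List.append_assoc]
      congr 1
    have e2 : u ++ relab (fun n => 2 * n + 1) E2 =
        (u ++ [(1, true, true)]) ++ [(1, false, false), (7, true, true)] ++
          [(7, false, false)] := by
      simp only [List.append_assoc]
      congr 1
    rw [e1, e2]
    exact h
  have s4 : Step (mul w E2) (mul w E3) := by
    rw [hmu, hmu]
    have h := Step.r1 u [(7, true, true), (7, false, false)] 1 true true
    have e1 : u ++ relab (fun n => 2 * n + 1) E2 =
        u ++ [(1, true, true), (1, !true, !true)] ++ [(7, true, true), (7, false, false)] := by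
      simp only [List.append_assoc]
      congr 1
    have e2 : u ++ relab (fun n => 2 * n + 1) E3 =
        u ++ [(7, true, true), (7, false, false)] := by
      congr 1
    rw [e1, e2]
    exact h
  have s5 : Step (mul w E3) (mul w []) := by
    rw [hmu, hmu]
    have h := Step.r1 u [] 7 true true
    have e1 : u ++ relab (fun n => 2 * n + 1) E3 =
        u ++ [(7, true, true), (7, !true, !true)] ++ [] := by
      rw [List.append_nil]
      congr 1
    have e2 : u ++ relab (fun n => 2 * n + 1) [] = u ++ [] := rfl
    rw [e1, e2]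
    exact h
  constructor
  · rw [kn_eq (hm _ d_trefoil') (hm _ d_E1) s1, kn_eq (hm _ d_E1) (hm _ d_nil) s2, ← h0]
  · rw [kn_eq (hm _ d_eight') (hm _ d_E2) s3, kn_eq (hm _ d_E2) (hm _ d_E3) s4,
      kn_eq (hm _ d_E3) (hm _ d_nil) s5, ← h0]

end Pool.Agent.ZOL.H65
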